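import Pool.Agent.W659.SA.Ext2

/-!
# Rational points on hyperbolic subvarieties of `A × ℙⁿ`

`K` is a number field, `A = E_1 × … × E_r` a product of elliptic curves `y² = x³ + a_i x` or
`y² = x³ + b_i` with `a_i, b_i ∈ ℤ`, and `X` is ANY closed subvariety of `A × ℙⁿ` over `K`, `n ≥ 1`:
the zero set of polynomials `G_1, …, G_q` with coefficients in `𝓞 K`, multihomogeneous in the
coordinates of the plane cubics `E_i`, homogeneous of degrees `k_1, …, k_q ≤ k` in `x ∈ ℙⁿ`.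

Theorem: if `X_σ` is hyperbolic for one embedding `σ : K → ℂ`, then for every finite extension `L` of
`K` there is `τ < 1` such that for all large `H` the points `x` with coordinates in `𝓞 L` of size at
most `H` over which `X` has an `L`-rational point lie on at most `exp((log H)^τ)` hypersurfaces of
degree `k` over `L`; so there are at most `exp((log H)^τ) k (2H+1)^(nN)` of the `(2H+1)^((n+1)N)`
vectors `x`, `N = [L : ℚ]`. (For `n = 1`: `X` has `L`-rational points over at most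
`k exp((log H)^τ)` of the points of `ℙ¹(L)` with coordinates of size at most `H`.)
-/

set_option autoImplicit false

namespace Pool.Agent.Results.MP_627a61_nt.HyperbolicSubvarieties

open MvPolynomial NumberField Pool.Agent.W659.SA

theorem result (K : Type) [Field K] [NumberField K] (r n q : ℕ) (hn : 1 ≤ n) (a b : Fin r → ℤ)
    (hab : ∀ i, a i * b i = 0 ∧ (a i ≠ 0 ∨ b i ≠ 0))
    (G : Fin q → Pol0 (𝓞 K) r (n + 1)) (d : Fin q → Fin r → ℕ) (hG : ∀ e, MHomog (G e) (d e))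
    (k' : Fin q → ℕ) (hGx : ∀ e, XHomog (G e) (k' e)) (k : ℕ) (hk : ∀ e, k' e ≤ k)
    (σ : K →+* ℂ) (hyp : BrodyHyperbolic (m := 0) σ a b G (fun _ => 0))
    (L : Type) [Field L] [NumberField L] [Algebra K L] (N : ℕ)
    (ω : Module.Basis (Fin N) ℤ (𝓞 L)) :
    ∃ τ : ℝ, 0 < τ ∧ τ < 1 ∧ ∃ H₀ : ℕ, 3 ≤ H₀ ∧ ∀ H : ℕ, H₀ ≤ H →
      (∃ FF : Finset (MvPolynomial (Fin (n + 1)) L),
        (FF.card : ℝ) ≤ Real.exp ((Real.log H) ^ τ) ∧
        (∀ f ∈ FF, f ≠ 0 ∧ f.IsHomogeneous k) ∧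
        ∀ c ∈ SolL K ω a b G H, ∃ f ∈ FF, eval (fun i => ((vec ω c i : 𝓞 L) : L)) f = 0) ∧
      (((SolL K ω a b G H).ncard : ℕ) : ℝ) ≤ Real.exp ((Real.log H) ^ τ) *
        ((k : ℝ) * (2 * (H : ℝ) + 1) ^ (N * n)) :=
  hsExt K r n q a b hab G d k' k hk hG hGx σ (fun V hV => by
    rcases hyp_cond σ hn a b G (fun _ : Fin 0 => 0) hyp V hV with h | ⟨e, _⟩
    · exact h
    · exact e.elim0) L N ω

end Pool.Agent.Results.MP_627a61_nt.HyperbolicSubvarieties
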