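import Mathlib
import Pool.Agent.H533R3.SL.UCountMain

set_option autoImplicit false

/-!
# A uniform bound for the number of sparse rational points on a hyperbolic variety

Let `X` be a closed subvariety of projective `n`-space over a number field `k`, cut out by `N` forms
of degree at most `d` with coefficients in `𝓞 k`, which is Brody (equivalently Kobayashi) hyperbolic
for one embedding `σ` of `k` in `ℂ`.  Let `b` be any nonzero nonunit of `𝓞 k` and `V` a finite set of
digits in `𝓞 k`.  The points of `X(k)` which have homogeneous coordinates of the form
`x i = ∑ j, v j i * b ^ (m j)` (`j = 1, …, r`, the same `r` exponents for all coordinates,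
`v j i ∈ V`) are finite in number, and there are at most
`#V ^ ((n + 1) r) * ((((d + 1) ^ r)!) ^ 2) ^ N` of them.  The bound does not depend on `k`, on `b`
or on the coefficients of the equations of `X`.

The points with few nonzero digits do not lie in a finitely generated group when `b` varies, and
`b` need not be an integer greater than one in absolute value at all places: it may be small at some
archimedean places.

Method: a valuation with `v(b) > 0` attaches to the vanishing of each form at a sparse point a
colour from a finite set of controlled size; two sparse points with the same digits and the same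
colours are joined by a rational curve on `X`, which is constant since `X` is hyperbolic.
-/

namespace Pool.Agent.Results.MP_627a61_nt.UniformSparseCount

open NumberField MvPolynomial Pool.Agent.H533R3.SL Pool.Agent.H458.Sp

theorem result (k : Type) [Field k] [NumberField k] (σ : k →+* ℂ) (n N : ℕ)
    (P : Fin N → MvPolynomial (Fin (n + 1)) (𝓞 k)) (d : ℕ)
    (hP : ∀ i, ∃ e, e ≤ d ∧ (P i).IsHomogeneous e)
    (hyp : BrodyHyperbolic ((MvPolynomial.map (σ.comp (algebraMap (𝓞 k) k))) '' Set.range P))
    (r : ℕ) (b : 𝓞 k) (hb : b ≠ 0) (hbu : ¬ IsUnit b) (V : Finset (𝓞 k)) :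
    (sparsePts P b r V).Finite ∧
    (sparsePts P b r V).ncard ≤
      V.card ^ ((n + 1) * r) * ((Nat.factorial ((d + 1) ^ r)) ^ 2) ^ N := by
  have h := card_sparsePts P d hP
    (noRat_of_brody P (fun i => by obtain ⟨e, _, he⟩ := hP i; exact ⟨e, he⟩) σ hyp) b hb hbu r V
  have hfin : (sparsePts P b r V).Finite := by
    rw [← Set.encard_lt_top_iff]
    exact lt_of_le_of_lt h (WithTop.coe_lt_top _)
  refine ⟨hfin, ?_⟩
  rw [← hfin.cast_ncard_eq] at h
  exact_mod_cast h

end Pool.Agent.Results.MP_627a61_nt.UniformSparseCount
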